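import Mathlib

open SimpleGraph Cardinal

namespace Pool.Agent.Results.MP_fc2b6d_co.InfiniteGraphs

/-- `F` is an `H`-free set of edges of `G`: the spanning subgraph `(V, F)` contains no subgraph
isomorphic to `H`. -/
def IsFreeEdgeSet {W V : Type} (H : SimpleGraph W) (G : SimpleGraph V) (F : Set (Sym2 V)) : Prop :=
  F ⊆ G.edgeSet ∧ H.Free (SimpleGraph.fromEdgeSet F)

/-- `F` is a strongly maximal `H`-free set of edges of `G`: `|I \ F| ≤ |F \ I|` (as cardinals) for
all `H`-free sets `I` of edges of `G`. -/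
def IsStronglyMaximal {W V : Type} (H : SimpleGraph W) (G : SimpleGraph V)
    (F : Set (Sym2 V)) : Prop :=
  IsFreeEdgeSet H G F ∧
    ∀ I : Set (Sym2 V), IsFreeEdgeSet H G I → Cardinal.mk ↥(I \ F) ≤ Cardinal.mk ↥(F \ I)

/-- The subgraph induced by `X` contains no ray (one-way infinite path). -/
def Rayless {W : Type} (H : SimpleGraph W) (X : Set W) : Prop :=
  ¬ ∃ r : ℕ → W, Function.Injective r ∧ ∀ n, r n ∈ X ∧ H.Adj (r n) (r (n + 1))

/-- The set of vertices outside `X` with a neighbour in `X`. -/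
def bd {W : Type} (H : SimpleGraph W) (X : Set W) : Set W := {w | w ∉ X ∧ ∃ x ∈ X, H.Adj x w}

/-- Every vertex of the component lies in a set `X` inducing a rayless graph such that only
finitely many vertices outside `X` have neighbours in `X`. -/
def Fine {W : Type} (H : SimpleGraph W) (C : H.ConnectedComponent) : Prop :=
  ∀ v ∈ C.supp, ∃ X : Set W, v ∈ X ∧ Rayless H X ∧ (bd H X).Finite

section aux

variable {W : Type} {H : SimpleGraph W}

theorem Rayless.mono {X Y : Set W} (h : X ⊆ Y) (hY : Rayless H Y) : Rayless H X := by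
  rintro ⟨r, hr, hr'⟩
  exact hY ⟨r, hr, fun n => ⟨h (hr' n).1, (hr' n).2⟩⟩

theorem exists_tail {S : Set ℕ} (hS : S.Finite) : ∃ N, ∀ n, N ≤ n → n ∉ S := by
  obtain ⟨M, hM⟩ := hS.bddAbove
  exact ⟨M + 1, fun n hn hnS => by have := hM hnS; omega⟩

theorem Rayless.union {X Y : Set W} (hX : Rayless H X) (hY : Rayless H Y)
    (hf : (bd H X).Finite) : Rayless H (X ∪ Y) := by
  rintro ⟨r, hr, h⟩
  have hfin : {n | r n ∈ bd H X}.Finite := hf.preimage hr.injOn
  obtain ⟨N, hN⟩ := exists_tail hfin
  by_cases hx : ∃ n, N ≤ n ∧ r n ∈ X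
  · obtain ⟨n, hn, hx⟩ := hx
    have key : ∀ m, r (n + m) ∈ X := by
      intro m
      induction m with
      | zero => simpa using hx
      | succ m ih =>
        by_contra hc
        exact hN (n + (m + 1)) (by omega) ⟨hc, r (n + m), ih, (h (n + m)).2⟩
    exact hX ⟨fun m => r (n + m), fun a b hab => by have := hr hab; omega,
      fun m => ⟨key m, (h (n + m)).2⟩⟩
  · push Not at hx
    exact hY ⟨fun m => r (N + m), fun a b hab => by have := hr hab; omega,
      fun m => ⟨(h (N + m)).1.resolve_left (hx _ (by omega)), (h (N + m)).2⟩⟩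

theorem bd_union {X Y : Set W} : bd H (X ∪ Y) ⊆ bd H X ∪ bd H Y := by
  rintro w ⟨hw, x, hx, hxw⟩
  rw [Set.mem_union, not_or] at hw
  rcases hx with hx | hx
  · exact Or.inl ⟨hw.1, x, hx, hxw⟩
  · exact Or.inr ⟨hw.2, x, hx, hxw⟩

theorem finite_union {S : Set W} (hS : S.Finite) (X : W → Set W)
    (h : ∀ w ∈ S, Rayless H (X w) ∧ (bd H (X w)).Finite) :
    Rayless H (⋃ w ∈ S, X w) ∧ (bd H (⋃ w ∈ S, X w)).Finite := by
  induction S, hS using Set.Finite.induction_on with
  | empty =>
    constructor
    · rintro ⟨r, -, h⟩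
      simpa using (h 0).1
    · convert Set.finite_empty
      ext w
      simp [bd]
  | @insert a S ha hS ih =>
    rw [Set.biUnion_insert]
    have h1 := ih (fun w hw => h w (Set.mem_insert_of_mem _ hw))
    have h2 := h a (Set.mem_insert _ _)
    exact ⟨h2.1.union h1.1 h2.2, (h2.2.union h1.2).subset bd_union⟩

theorem adj_supp {C : H.ConnectedComponent} {a b : W} (ha : a ∈ C.supp) (h : H.Adj a b) :
    b ∈ C.supp := by
  rw [ConnectedComponent.mem_supp_iff] at ha ⊢
  rw [← ha]
  exact (ConnectedComponent.sound h.reachable).symm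

theorem exhaust {C : H.ConnectedComponent} (hC : Fine H C) :
    ∃ B : ℕ → Set W, (∀ n, B n ⊆ C.supp) ∧ (∀ n, Rayless H (B n)) ∧ (∀ n, (bd H (B n)).Finite) ∧
      (∀ n, B n ⊆ B (n + 1)) ∧ (∀ n, bd H (B n) ⊆ B (n + 1)) ∧ ∀ v ∈ C.supp, ∃ n, v ∈ B n := by
  classical
  have hex : ∀ v ∈ C.supp, ∃ X : Set W, v ∈ X ∧ X ⊆ C.supp ∧ Rayless H X ∧ (bd H X).Finite := by
    intro v hv
    obtain ⟨X, h1, h2, h3⟩ := hC v hv
    refine ⟨X ∩ C.supp, ⟨h1, hv⟩, Set.inter_subset_right, h2.mono Set.inter_subset_left,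
      h3.subset ?_⟩
    rintro w ⟨hw, x, hx, hxw⟩
    exact ⟨fun hwX => hw ⟨hwX, adj_supp hx.2 hxw⟩, x, hx.1, hxw⟩
  choose! X hX1 hX2 hX3 hX4 using hex
  obtain ⟨v0, hv0⟩ := C.nonempty_supp
  let B : ℕ → Set W := fun n => Nat.rec (X v0) (fun _ S => S ∪ ⋃ w ∈ bd H S, X w) n
  have hB0 : B 0 = X v0 := rfl
  have hB1 : ∀ n, B (n + 1) = B n ∪ ⋃ w ∈ bd H (B n), X w := fun n => rfl
  have main : ∀ n, B n ⊆ C.supp ∧ Rayless H (B n) ∧ (bd H (B n)).Finite := by
    intro n
    induction n with
    | zero => exact ⟨hX2 v0 hv0, hX3 v0 hv0, hX4 v0 hv0⟩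
    | succ n ih =>
      obtain ⟨h1, h2, h3⟩ := ih
      have hsub : ∀ w ∈ bd H (B n), w ∈ C.supp := by
        rintro w ⟨-, x, hx, hxw⟩
        exact adj_supp (h1 hx) hxw
      have h4 := finite_union (H := H) h3 X (fun w hw => ⟨hX3 w (hsub w hw), hX4 w (hsub w hw)⟩)
      rw [hB1]
      refine ⟨Set.union_subset h1 (Set.iUnion₂_subset fun w hw => hX2 w (hsub w hw)),
        h2.union h4.1 h3, (h3.union h4.2).subset bd_union⟩
  have hstep : ∀ n, B n ⊆ B (n + 1) := fun n => by rw [hB1]; exact Set.subset_union_left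
  have hbd : ∀ n, bd H (B n) ⊆ B (n + 1) := by
    intro n w hw
    rw [hB1]
    refine Or.inr (Set.mem_biUnion hw (hX1 w ?_))
    obtain ⟨-, x, hx, hxw⟩ := hw
    exact adj_supp ((main n).1 hx) hxw
  refine ⟨B, fun n => (main n).1, fun n => (main n).2.1, fun n => (main n).2.2, hstep, hbd, ?_⟩
  intro v hv
  have hr : H.Reachable v0 v := by
    rw [ConnectedComponent.mem_supp_iff] at hv hv0
    exact ConnectedComponent.exact (hv0.trans hv.symm)
  obtain ⟨p⟩ := hr
  have hgen : ∀ {a b : W} (p : H.Walk a b), (∃ n, a ∈ B n) → ∃ n, b ∈ B n := by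
    intro a b p
    induction p with
    | nil => exact id
    | @cons a b c hab p ih =>
      rintro ⟨n, hn⟩
      apply ih
      rcases Classical.em (b ∈ B n) with hb | hb
      · exact ⟨n, hb⟩
      · exact ⟨n + 1, hbd n ⟨hb, a, hn, hab⟩⟩
  exact hgen p ⟨0, hX1 v0 hv0⟩

end aux

/-- vertices of the host -/
inductive Vx (W K : Type) (D : Type) (R : Type)
  | core (w : W) : Vx W K D R
  | res (d : D) (n : ℕ) (X : R) (i : K) (w : W) : Vx W K D R
  | cop (i : K) (w : W) : Vx W K D R

section host

variable {W : Type} (H : SimpleGraph W)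

/-- cardinal large index set -/
abbrev KK (W : Type) : Type := Set (Sym2 W ⊕ W ⊕ ℕ)

/-- vertex set of the host -/
abbrev VV : Type := Vx W (KK W) H.ConnectedComponent {X : Set W // Rayless H X}

open Classical in
/-- the exhausting sequence -/
noncomputable def BB (C : H.ConnectedComponent) : ℕ → Set W :=
  if h : Fine H C then (exhaust h).choose else fun _ => ∅

/-- generating adjacency relation -/
inductive Rel : VV H → VV H → Prop
  | core (u v : W) (hu : Fine H (H.connectedComponentMk u)) (h : H.Adj u v) :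
      Rel (.core u) (.core v)
  | att (u : W) (d : H.ConnectedComponent) (hd : Fine H d) (n : ℕ) (X : {X : Set W // Rayless H X})
      (i : KK W) (w : W) (hu : u ∈ bd H (BB H d n)) (hw : w ∈ X.1) :
      Rel (.core u) (.res d n X i w)
  | res (d : H.ConnectedComponent) (n : ℕ) (X : {X : Set W // Rayless H X}) (i : KK W) (w w' : W)
      (hw : w ∈ X.1) (hw' : w' ∈ X.1) (h : H.Adj w w') :
      Rel (.res d n X i w) (.res d n X i w')
  | cop (i : KK W) (w w' : W) (h : H.Adj w w') (hw : ¬ Fine H (H.connectedComponentMk w)) :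
      Rel (.cop i w) (.cop i w')

/-- the host graph -/
def GG : SimpleGraph (VV H) where
  Adj a b := Rel H a b ∨ Rel H b a
  symm := ⟨fun a b h => Or.symm h⟩
  loopless := ⟨by
    rintro a (h | h) <;> cases h <;> simp_all⟩

variable {H}

theorem BB_spec {C : H.ConnectedComponent} (hC : Fine H C) :
    (∀ n, BB H C n ⊆ C.supp) ∧ (∀ n, Rayless H (BB H C n)) ∧ (∀ n, (bd H (BB H C n)).Finite) ∧
      (∀ n, BB H C n ⊆ BB H C (n + 1)) ∧ (∀ n, bd H (BB H C n) ⊆ BB H C (n + 1)) ∧
      ∀ v ∈ C.supp, ∃ n, v ∈ BB H C n := by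
  unfold BB
  rw [dif_pos hC]
  exact (exhaust hC).choose_spec

theorem BB_mono {C : H.ConnectedComponent} (hC : Fine H C) {m n : ℕ} (h : m ≤ n) :
    BB H C m ⊆ BB H C n := by
  induction n, h using Nat.le_induction with
  | base => exact subset_rfl
  | succ n hmn ih => exact ih.trans ((BB_spec hC).2.2.2.1 n)

variable (H) in
/-- level of a vertex of `H` -/
noncomputable def lev (w : W) : ℕ := sInf {n | w ∈ BB H (H.connectedComponentMk w) n}

theorem mem_BB_iff {w : W} (hw : Fine H (H.connectedComponentMk w)) (n : ℕ) :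
    w ∈ BB H (H.connectedComponentMk w) n ↔ lev H w ≤ n := by
  constructor
  · intro h
    exact Nat.sInf_le h
  · intro h
    have hne : {n | w ∈ BB H (H.connectedComponentMk w) n}.Nonempty :=
      (BB_spec hw).2.2.2.2.2 w (by rw [ConnectedComponent.mem_supp_iff])
    exact BB_mono hw h (Nat.sInf_mem hne)

theorem bd_comp {C : H.ConnectedComponent} (hC : Fine H C) {n : ℕ} {w : W}
    (hw : w ∈ bd H (BB H C n)) : H.connectedComponentMk w = C := by
  obtain ⟨-, x, hx, hxw⟩ := hw
  exact adj_supp ((BB_spec hC).1 n hx) hxw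

theorem bd_lev {C : H.ConnectedComponent} (hC : Fine H C) {n : ℕ} {w : W}
    (hw : w ∈ bd H (BB H C n)) : lev H w = n + 1 := by
  have h1 := bd_comp hC hw
  subst h1
  have h2 : w ∈ BB H (H.connectedComponentMk w) (n + 1) := (BB_spec hC).2.2.2.2.1 n hw
  have h3 : w ∉ BB H (H.connectedComponentMk w) n := hw.1
  rw [mem_BB_iff hC] at h2 h3
  omega

/-- component of a vertex of the host -/
def vcomp : VV H → H.ConnectedComponent
  | .core w => H.connectedComponentMk w
  | .res d _ _ _ _ => d
  | .cop _ w => H.connectedComponentMk w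

/-- level of a vertex of the host -/
noncomputable def vlev : VV H → ℕ
  | .core w => lev H w
  | .res _ n _ _ _ => n + 1
  | .cop _ _ => 0

/-- zone of a vertex of the host -/
def zone : VV H → Option (KK W)
  | .core _ => none
  | .res _ _ _ _ _ => none
  | .cop i _ => some i

/-- index of a vertex of the host -/
def idx : VV H → Option (KK W)
  | .core _ => none
  | .res _ _ _ i _ => some i
  | .cop i _ => some i

theorem adj_vcomp {a b : VV H} (h : (GG H).Adj a b) : vcomp a = vcomp b := by
  rcases h with h | h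
  · cases h with
    | core u v hu h => exact ConnectedComponent.sound h.reachable
    | att u d hd n X i w hu hw => exact bd_comp hd hu
    | res d n X i w w' hw hw' h => rfl
    | cop i w w' h hw => exact ConnectedComponent.sound h.reachable
  · cases h with
    | core u v hu h => exact (ConnectedComponent.sound h.reachable).symm
    | att u d hd n X i w hu hw => exact (bd_comp hd hu).symm
    | res d n X i w w' hw hw' h => rfl
    | cop i w w' h hw => exact (ConnectedComponent.sound h.reachable).symm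

theorem adj_zone {a b : VV H} (h : (GG H).Adj a b) : zone a = zone b := by
  rcases h with h | h <;> cases h <;> rfl

/-- the core vertices lying in the boundaries of the levels below `n` -/
def sep (C : H.ConnectedComponent) (n : ℕ) : Set (VV H) :=
  {a | Fine H C ∧ ∃ m < n, ∃ w ∈ bd H (BB H C m), a = .core w}

theorem sep_finite (C : H.ConnectedComponent) (n : ℕ) : (sep C n).Finite := by
  by_cases hC : Fine H C
  · have : sep C n = ⋃ m ∈ Set.Iio n, Vx.core '' bd H (BB H C m) := by
      ext a
      simp only [sep, Set.mem_ofPred_eq, Set.mem_iUnion, Set.mem_image, Set.mem_Iio, exists_prop]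
      constructor
      · rintro ⟨-, m, hm, w, hw, rfl⟩
        exact ⟨m, hm, w, hw, rfl⟩
      · rintro ⟨m, hm, w, hw, rfl⟩
        exact ⟨hC, m, hm, w, hw, rfl⟩
    rw [this]
    exact (Set.finite_Iio n).biUnion fun m _ => ((BB_spec hC).2.2.1 m).image _
  · convert Set.finite_empty
    ext a
    simp [sep, hC]

theorem adj_cases {a b : VV H} (h : (GG H).Adj a b) (hz : zone a = none) {n : ℕ}
    (ha : vlev a ≤ n) (hb : vlev b ≤ n) (ha' : a ∉ sep (vcomp a) n) (hb' : b ∉ sep (vcomp b) n) :
    (∃ u v, a = .core u ∧ b = .core v ∧ H.Adj u v ∧ Fine H (H.connectedComponentMk u)) ∨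
    (∃ d m X i w w', a = .res d m X i w ∧ b = .res d m X i w' ∧ w ∈ X.1 ∧ H.Adj w w') := by
  rcases h with h | h
  · cases h with
    | core u v hu h => exact Or.inl ⟨u, v, rfl, rfl, h, hu⟩
    | att u d hd m X i w hu hw =>
      refine absurd ?_ ha'
      refine ⟨?_, m, ?_, u, ?_, rfl⟩
      · rw [vcomp, bd_comp hd hu]; exact hd
      · rw [vlev, bd_lev hd hu] at ha; omega
      · rw [vcomp, bd_comp hd hu]; exact hu
    | res d n X i w w' hw hw' h => exact Or.inr ⟨d, n, X, i, w, w', rfl, rfl, hw, h⟩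
    | cop i w w' h hw => cases hz
  · cases h with
    | core u v hu h => exact Or.inl ⟨v, u, rfl, rfl, h.symm, by
        rw [← ConnectedComponent.sound h.reachable]; exact hu⟩
    | att u d hd m X i w hu hw =>
      refine absurd ?_ hb'
      refine ⟨?_, m, ?_, u, ?_, rfl⟩
      · rw [vcomp, bd_comp hd hu]; exact hd
      · rw [vlev, bd_lev hd hu] at hb; omega
      · rw [vcomp, bd_comp hd hu]; exact hu
    | res d n X i w w' hw hw' h => exact Or.inr ⟨d, n, X, i, w', w, rfl, rfl, hw', h.symm⟩
    | cop i w w' h hw => cases hz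

theorem no_ray (r : ℕ → VV H) (hr : Function.Injective r)
    (hadj : ∀ j, (GG H).Adj (r j) (r (j + 1))) (n : ℕ) (hz : ∀ j, zone (r j) = none)
    (hl : ∀ j, vlev (r j) ≤ n) : False := by
  have hD : ∀ j, vcomp (r j) = vcomp (r 0) := by
    intro j
    induction j with
    | zero => rfl
    | succ j ih => rw [← adj_vcomp (hadj j), ih]
  obtain ⟨N, hN⟩ := exists_tail ((sep_finite (vcomp (r 0)) n).preimage hr.injOn)
  have key : ∀ j, N ≤ j → (∃ u v, r j = .core u ∧ r (j + 1) = .core v ∧ H.Adj u v ∧
      Fine H (H.connectedComponentMk u)) ∨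
      (∃ d m X i w w', r j = .res d m X i w ∧ r (j + 1) = .res d m X i w' ∧ w ∈ X.1 ∧
        H.Adj w w') := by
    intro j hj
    refine adj_cases (hadj j) (hz j) (hl j) (hl (j + 1)) ?_ ?_
    · rw [hD j]; exact hN j hj
    · rw [hD (j + 1)]; exact hN (j + 1) (by omega)
  rcases key N le_rfl with ⟨u, v, h1, h2, h3, h4⟩ | ⟨d, m, X, i, w, w', h1, h2, h3, h4⟩
  · have all : ∀ k, ∃ u, r (N + k) = .core u := by
      intro k
      induction k with
      | zero => exact ⟨u, h1⟩
      | succ k ih =>
        obtain ⟨u', hu'⟩ := ih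
        rcases key (N + k) (by omega) with ⟨u2, v2, h1, h2, -, -⟩ | ⟨d, m, X, i, w, w', h1, -, -⟩
        · exact ⟨v2, h2⟩
        · rw [hu'] at h1; cases h1
    choose U hU using all
    have hadjU : ∀ k, H.Adj (U k) (U (k + 1)) ∧ Fine H (H.connectedComponentMk (U k)) := by
      intro k
      rcases key (N + k) (by omega) with ⟨u2, v2, h1, h2, h3, h4⟩ | ⟨d, m, X, i, w, w', h1, -, -⟩
      · rw [hU k] at h1
        rw [show N + k + 1 = N + (k + 1) by ring, hU (k + 1)] at h2
        cases h1
        cases h2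
        exact ⟨h3, h4⟩
      · rw [hU k] at h1; cases h1
    have hDU : ∀ k, H.connectedComponentMk (U k) = vcomp (r 0) := by
      intro k
      rw [← hD (N + k), hU k]
      rfl
    have hf : Fine H (vcomp (r 0)) := by rw [← hDU 0]; exact (hadjU 0).2
    refine (BB_spec hf).2.1 n ⟨U, ?_, ?_⟩
    · intro a b hab
      have h := hr ((hU a).trans ((congrArg _ hab).trans (hU b).symm))
      omega
    · intro k
      refine ⟨?_, (hadjU k).1⟩
      rw [← hDU k, mem_BB_iff (hadjU k).2]
      have := hl (N + k)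
      rw [hU k] at this
      exact this
  · have all : ∀ k, ∃ w, r (N + k) = .res d m X i w := by
      intro k
      induction k with
      | zero => exact ⟨w, h1⟩
      | succ k ih =>
        obtain ⟨u', hu'⟩ := ih
        rcases key (N + k) (by omega) with ⟨u2, v2, h1, h2, -, -⟩ | ⟨d, m, X, i, w, w', h1, h2, -⟩
        · rw [hu'] at h1; cases h1
        · rw [hu'] at h1
          cases h1
          exact ⟨w', h2⟩
    choose U hU using all
    refine X.2 ⟨U, ?_, ?_⟩
    · intro a b hab
      have h := hr ((hU a).trans ((congrArg _ hab).trans (hU b).symm))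
      omega
    · intro k
      rcases key (N + k) (by omega) with ⟨u2, v2, h1, h2, -, -⟩ |
        ⟨d, m, X, i, w, w', h1, h2, h3, h4⟩
      · rw [hU k] at h1; cases h1
      · rw [hU k] at h1
        rw [show N + k + 1 = N + (k + 1) by ring, hU (k + 1)] at h2
        cases h1
        cases h2
        exact ⟨h3, h4⟩

/-- edges which are not core edges do not change the level -/
theorem vlev_eq {a b : VV H} (h : (GG H).Adj a b) (hz : zone a = none)
    (hc : ¬ ∃ u v, s(a, b) = s(Vx.core u, Vx.core v)) : vlev a = vlev b := by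
  rcases h with h | h
  · cases h with
    | core u v hu h => exact absurd ⟨u, v, rfl⟩ hc
    | att u d hd m X i w hu hw => exact bd_lev hd hu
    | res d n X i w w' hw hw' h => rfl
    | cop i w w' h hw => cases hz
  · cases h with
    | core u v hu h => exact absurd ⟨v, u, rfl⟩ hc
    | att u d hd m X i w hu hw => exact (bd_lev hd hu).symm
    | res d n X i w w' hw hw' h => rfl
    | cop i w w' h hw => cases hz

theorem cross {a b : VV H} (h : (GG H).Adj a b) (hz : zone a = none) {n : ℕ}
    (ha : vlev a ≤ n) (hb : n < vlev b) :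
    Fine H (vcomp a) ∧ ∃ w ∈ bd H (BB H (vcomp a) n), b = .core w := by
  rcases h with h | h
  · cases h with
    | core u v hu h =>
      refine ⟨hu, v, ⟨?_, u, ?_, h⟩, rfl⟩
      · have hv : Fine H (H.connectedComponentMk v) := by
          rw [← ConnectedComponent.sound h.reachable]; exact hu
        rw [vcomp, ConnectedComponent.sound h.reachable, mem_BB_iff hv]
        exact not_le.2 hb
      · rw [vcomp, mem_BB_iff hu]
        exact ha
    | att u d hd m X i w hu hw =>
      rw [vlev, bd_lev hd hu] at ha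
      rw [vlev] at hb
      omega
    | res d n X i w w' hw hw' h => exact absurd ha (not_le.2 hb)
    | cop i w w' h hw => cases hz
  · cases h with
    | core u v hu h =>
      have hv : Fine H (H.connectedComponentMk v) := by
        rw [← ConnectedComponent.sound h.reachable]; exact hu
      refine ⟨hv, u, ⟨?_, v, ?_, h.symm⟩, rfl⟩
      · rw [vcomp, ← ConnectedComponent.sound h.reachable, mem_BB_iff hu]
        exact not_le.2 hb
      · rw [vcomp, mem_BB_iff hv]
        exact ha
    | att u d hd m X i w hu hw =>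
      rw [vlev, bd_lev hd hu] at hb
      rw [vlev] at ha
      omega
    | res d n X i w w' hw hw' h => exact absurd ha (not_le.2 hb)
    | cop i w w' h hw => cases hz

theorem adj_idx {a b : VV H} (h : (GG H).Adj a b) {i j : KK W} (ha : idx a = some i)
    (hb : idx b = some j) : i = j := by
  rcases h with h | h <;> cases h <;> simp_all [idx]

/-- the vertex of `H` carried by a vertex of the host -/
def wof : VV H → W
  | .core w => w
  | .res _ _ _ _ w => w
  | .cop _ w => w

theorem adj_cop {a b : VV H} (h : (GG H).Adj a b) {i : KK W} (hz : zone a = some i) :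
    a = .cop i (wof a) ∧ b = .cop i (wof b) ∧ H.Adj (wof a) (wof b) ∧
      ¬ Fine H (H.connectedComponentMk (wof a)) := by
  rcases h with h | h
  · cases h with
    | core u v hu h => cases hz
    | att u d hd m X i w hu hw => cases hz
    | res d n X i w w' hw hw' h => cases hz
    | cop j w w' h hw =>
      cases hz
      exact ⟨rfl, rfl, h, hw⟩
  · cases h with
    | core u v hu h => cases hz
    | att u d hd m X i w hu hw => cases hz
    | res d n X i w w' hw hw' h => cases hz
    | cop j w w' h hw =>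
      cases hz
      refine ⟨rfl, rfl, h.symm, ?_⟩
      rw [wof, ← ConnectedComponent.sound h.reachable]
      exact hw

theorem comp_induct {C : H.ConnectedComponent} {P : W → Prop}
    (h : ∀ a b, H.Adj a b → P a → P b) {v0 v : W} (hv0 : v0 ∈ C.supp) (hv : v ∈ C.supp)
    (h0 : P v0) : P v := by
  have hr : H.Reachable v0 v := by
    rw [ConnectedComponent.mem_supp_iff] at hv hv0
    exact ConnectedComponent.exact (hv0.trans hv.symm)
  obtain ⟨p⟩ := hr
  clear hv hv0
  induction p with
  | nil => exact h0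
  | @cons a b c hab p ih => exact ih (h _ _ hab h0)

theorem adj_of_ne {F : Set (Sym2 (VV H))} (hF : F ⊆ (GG H).edgeSet) {a b : VV H}
    (h : (fromEdgeSet F).Adj a b) : (GG H).Adj a b := by
  rw [fromEdgeSet_adj] at h
  exact hF h.1

/-- the set of core edges -/
def coreE (H : SimpleGraph W) : Set (Sym2 (VV H)) := {e | ∃ u v, e = s(Vx.core u, Vx.core v)}

theorem free_of_disj {C : H.ConnectedComponent} (hray : ¬ Rayless H C.supp)
    (hC : ∀ C' : H.ConnectedComponent, C.toSimpleGraph ⊑ C'.toSimpleGraph → Fine H C') :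
    H.Free (fromEdgeSet ((GG H).edgeSet \ coreE H)) := by
  rintro ⟨f⟩
  have hadj : ∀ {a b}, H.Adj a b → (GG H).Adj (f a) (f b) ∧ s(f a, f b) ∉ coreE H := by
    intro a b hab
    have h := f.toHom.map_adj hab
    rw [fromEdgeSet_adj] at h
    exact ⟨h.1.1, h.1.2⟩
  rw [Rayless, not_not] at hray
  obtain ⟨r, hr, hr'⟩ := hray
  have hzone : ∀ v ∈ C.supp, zone (f v) = zone (f (r 0)) := fun v hv =>
    comp_induct (P := fun v => zone (f v) = zone (f (r 0)))
      (fun a b hab h => (adj_zone (hadj hab).1).symm.trans h) (hr' 0).1 hv rfl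
  cases hz : zone (f (r 0)) with
  | none =>
    have hl : ∀ j, vlev (f (r j)) = vlev (f (r 0)) := by
      intro j
      induction j with
      | zero => rfl
      | succ j ih =>
        rw [← ih]
        refine (vlev_eq (hadj (hr' j).2).1 ?_ (hadj (hr' j).2).2).symm
        rw [hzone _ (hr' j).1, hz]
    exact no_ray (fun j => f (r j)) (fun a b hab => hr (f.injective hab))
      (fun j => (hadj (hr' j).2).1) (vlev (f (r 0)))
      (fun j => (hzone _ (hr' j).1).trans hz) (fun j => (hl j).le)
  | some i =>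
    have hcop : ∀ a b, a ∈ C.supp → H.Adj a b → H.Adj (wof (f a)) (wof (f b)) := by
      intro a b ha hab
      exact (adj_cop (hadj hab).1 ((hzone _ ha).trans hz)).2.2.1
    have hex : ∀ v ∈ C.supp, ∃ b, H.Adj v b := by
      intro v hv
      refine comp_induct (P := fun v => ∃ b, H.Adj v b) (fun a b hab _ => ⟨a, hab.symm⟩)
        (hr' 0).1 hv ⟨_, (hr' 0).2⟩
    have hcop' : ∀ v ∈ C.supp, f v = .cop i (wof (f v)) ∧
        ¬ Fine H (H.connectedComponentMk (wof (f v))) := by
      intro v hv
      obtain ⟨b, hb⟩ := hex v hv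
      have := adj_cop (hadj hb).1 ((hzone _ hv).trans hz)
      exact ⟨this.1, this.2.2.2⟩
    have hcomp : ∀ v ∈ C.supp, wof (f v) ∈ (H.connectedComponentMk (wof (f (r 0)))).supp := by
      intro v hv
      have h := comp_induct (P := fun v => v ∈ C.supp ∧
        wof (f v) ∈ (H.connectedComponentMk (wof (f (r 0)))).supp) (v := v)
        (fun a b hab h => ⟨adj_supp h.1 hab, adj_supp h.2 (hcop a b h.1 hab)⟩) (hr' 0).1 hv
        ⟨(hr' 0).1, by rw [ConnectedComponent.mem_supp_iff]⟩
      exact h.2
    refine (hcop' _ (hr' 0).1).2 (hC _ ⟨⟨⟨fun v => ⟨wof (f v.1), hcomp v.1 v.2⟩, ?_⟩, ?_⟩⟩)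
    · rintro ⟨a, ha⟩ ⟨b, hb⟩ hab
      exact hcop a b ha hab
    · rintro ⟨a, ha⟩ ⟨b, hb⟩ hab
      have h1 : wof (f a) = wof (f b) := congrArg Subtype.val hab
      have h2 : f a = f b := by
        rw [(hcop' a ha).1, (hcop' b hb).1, h1]
      exact Subtype.ext (f.injective h2)

theorem infinite_KK : Cardinal.aleph0 ≤ #(KK W) := by
  have h : #ℕ ≤ #(KK W) := by
    refine Cardinal.mk_le_of_injective (f := fun n : ℕ => ({Sum.inr (Sum.inr n)} : KK W)) ?_
    intro a b hab
    simpa using hab
  simpa using h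

theorem lt_KK_of_inj {T : Type} (g : T → Sym2 W ⊕ W ⊕ ℕ) (hg : Function.Injective g) :
    #T < #(KK W) := by
  refine (Cardinal.mk_le_of_injective hg).trans_lt ?_
  rw [Cardinal.mk_set]
  exact Cardinal.cantor _

theorem reroute {F : Set (Sym2 (VV H))} (hF : F ⊆ (GG H).edgeSet)
    (hfree : H.Free (fromEdgeSet F)) (hcard : #↥((GG H).edgeSet \ F) < #(KK W))
    {e : Sym2 (VV H)} (he : e ∈ (GG H).edgeSet) (f : Copy H (fromEdgeSet (insert e F)))
    (x y : W) (hxy : s(f x, f y) = e) (Y : Set W) (hx : x ∈ Y)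
    (g : KK W → W → VV H) (g1 : ∀ i, Set.InjOn (g i) Y) (g2 : ∀ i, ∀ v ∈ Y, idx (g i v) = some i)
    (g3 : ∀ i, ∀ a ∈ Y, ∀ b ∈ Y, H.Adj a b → (GG H).Adj (g i a) (g i b))
    (g4 : ∀ i, ∀ a ∈ Y, ∀ b, b ∉ Y → H.Adj a b → (GG H).Adj (g i a) (f b)) : False := by
  classical
  let bad1 : Set (KK W) := {i | ∃ v, idx (f v) = some i}
  let bad2 : Set (KK W) := {i | ∃ e' ∈ (GG H).edgeSet \ F, ∃ a ∈ e', idx a = some i}
  have hb1 : #↥bad1 < #(KK W) := by
    have hch : ∀ i : bad1, ∃ v, idx (f v) = some i.1 := fun i => i.2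
    choose v hv using hch
    refine lt_KK_of_inj (fun i : bad1 => Sum.inr (Sum.inl (v i))) ?_
    intro i j hij
    have h : v i = v j := by simpa using hij
    have h1 := hv i
    rw [h, hv j] at h1
    exact Subtype.ext (Option.some.inj h1).symm
  have hb2 : #↥bad2 < #(KK W) := by
    refine lt_of_le_of_lt ?_ hcard
    have hch : ∀ i : bad2, ∃ e' : ↥((GG H).edgeSet \ F), ∃ a ∈ e'.1, idx a = some i.1 := by
      rintro ⟨i, e', he', h⟩
      exact ⟨⟨e', he'⟩, h⟩
    choose e' a ha hia using hch
    refine Cardinal.mk_le_of_injective (f := e') ?_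
    intro i j hij
    have h1 := ha i
    have h2 := ha j
    rw [← hij] at h2
    have h3 := (e' i).2.1
    revert h1 h2 h3
    generalize (e' i).1 = e0
    induction e0 using Sym2.ind with
    | _ p q =>
      intro h1 h2 h3
      rw [mem_edgeSet] at h3
      rw [Sym2.mem_iff] at h1 h2
      have h4 := hia i
      have h5 := hia j
      refine Subtype.ext ?_
      rcases h1 with h1 | h1 <;> rcases h2 with h2 | h2 <;> rw [h1] at h4 <;> rw [h2] at h5
      · rw [h4] at h5; exact Option.some.inj h5
      · exact adj_idx h3 h4 h5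
      · exact (adj_idx h3 h5 h4).symm
      · rw [h4] at h5; exact Option.some.inj h5
  have hex : ∃ i : KK W, i ∉ bad1 ∪ bad2 := by
    by_contra hcon
    push Not at hcon
    have h1 : #(KK W) ≤ #↥(bad1 ∪ bad2) := by
      rw [← Cardinal.mk_univ]
      exact Cardinal.mk_le_mk_of_subset fun i _ => hcon i
    have h2 := h1.trans (Cardinal.mk_union_le bad1 bad2)
    exact absurd h2 (not_le.2 (Cardinal.add_lt_of_lt infinite_KK hb1 hb2))
  obtain ⟨i, hi⟩ := hex
  rw [Set.mem_union, not_or] at hi
  obtain ⟨hi1, hi2⟩ := hi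
  have hi1' : ∀ v, idx (f v) ≠ some i := fun v hv => hi1 ⟨v, hv⟩
  have hin : ∀ a b, (GG H).Adj a b → idx a = some i → s(a, b) ∈ F := by
    intro a b hab ha
    by_contra hc
    exact hi2 ⟨s(a, b), ⟨hab, hc⟩, a, Sym2.mem_mk_left _ _, ha⟩
  have hIns : insert e F ⊆ (GG H).edgeSet := Set.insert_subset he hF
  refine hfree ⟨⟨⟨fun v => if v ∈ Y then g i v else f v, ?_⟩, ?_⟩⟩
  · intro a b hab
    have hne : a ≠ b := hab.ne
    have hfab := f.toHom.map_adj hab
    rw [fromEdgeSet_adj]
    by_cases ha : a ∈ Y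
    · by_cases hb : b ∈ Y
      · simp only [if_pos ha, if_pos hb]
        exact ⟨hin _ _ (g3 i a ha b hb hab) (g2 i a ha), (g3 i a ha b hb hab).ne⟩
      · simp only [if_pos ha, if_neg hb]
        exact ⟨hin _ _ (g4 i a ha b hb hab) (g2 i a ha), (g4 i a ha b hb hab).ne⟩
    · by_cases hb : b ∈ Y
      · simp only [if_neg ha, if_pos hb]
        have h := g4 i b hb a ha hab.symm
        refine ⟨?_, h.ne.symm⟩
        rw [Sym2.eq_swap]
        exact hin _ _ h (g2 i b hb)
      · simp only [if_neg ha, if_neg hb]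
        rw [fromEdgeSet_adj] at hfab
        refine ⟨?_, hfab.2⟩
        rcases hfab.1 with h | h
        · exfalso
          have h' : s(f a, f b) = s(f x, f y) := h.trans hxy.symm
          rw [Sym2.eq_iff] at h'
          rcases h' with ⟨h1, h2⟩ | ⟨h1, h2⟩
          · exact ha (f.injective h1 ▸ hx)
          · exact hb (f.injective h2 ▸ hx)
        · exact h
  · intro a b hab
    dsimp only [RelHom.coeFn_mk] at hab
    by_cases ha : a ∈ Y
    · by_cases hb : b ∈ Y
      · simp only [if_pos ha, if_pos hb] at hab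
        exact g1 i ha hb hab
      · simp only [if_pos ha, if_neg hb] at hab
        exact absurd (hab ▸ g2 i a ha) (hi1' b)
    · by_cases hb : b ∈ Y
      · simp only [if_neg ha, if_pos hb] at hab
        exact absurd (hab ▸ g2 i b hb) (hi1' a)
      · simp only [if_neg ha, if_neg hb] at hab
        exact f.injective hab

theorem exchange {F : Set (Sym2 (VV H))} (hF : F ⊆ (GG H).edgeSet)
    (hfree : H.Free (fromEdgeSet F)) (hcard : #↥((GG H).edgeSet \ F) < #(KK W))
    {e : Sym2 (VV H)} (he : e ∈ (GG H).edgeSet) :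
    H.Free (fromEdgeSet (insert e F)) := by
  classical
  rintro ⟨f⟩
  have hIns : insert e F ⊆ (GG H).edgeSet := Set.insert_subset he hF
  have hadj : ∀ {a b}, H.Adj a b → (GG H).Adj (f a) (f b) := by
    intro a b hab
    exact adj_of_ne hIns (f.toHom.map_adj hab)
  have hxy : ∃ x y, H.Adj x y ∧ s(f x, f y) = e := by
    by_contra hcon
    push Not at hcon
    refine hfree ⟨⟨⟨f, ?_⟩, f.injective⟩⟩
    intro a b hab
    have h := f.toHom.map_adj hab
    rw [fromEdgeSet_adj] at h ⊢
    exact ⟨h.1.resolve_left (hcon a b hab), h.2⟩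
  obtain ⟨x, y, hxy, hxye⟩ := hxy
  set C := H.connectedComponentMk x with hCdef
  have hxC : x ∈ C.supp := by rw [ConnectedComponent.mem_supp_iff]
  have hzone : ∀ v ∈ C.supp, zone (f v) = zone (f x) := fun v hv =>
    comp_induct (P := fun v => zone (f v) = zone (f x))
      (fun a b hab h => (adj_zone (hadj hab)).symm.trans h) hxC hv rfl
  cases hz : zone (f x) with
  | none =>
    have hcomp : ∀ v ∈ C.supp, vcomp (f v) = vcomp (f x) := fun v hv =>
      comp_induct (P := fun v => vcomp (f v) = vcomp (f x))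
        (fun a b hab h => (adj_vcomp (hadj hab)).symm.trans h) hxC hv rfl
    set n := vlev (f x) with hn
    set Y : Set W := {v | v ∈ C.supp ∧ vlev (f v) ≤ n} with hY
    have hYr : Rayless H Y := by
      rintro ⟨r, hr, hr'⟩
      exact no_ray (fun j => f (r j)) (fun a b hab => hr (f.injective hab))
        (fun j => hadj (hr' j).2) n (fun j => (hzone _ (hr' j).1.1).trans hz)
        (fun j => (hr' j).1.2)
    refine reroute hF hfree hcard he f x y hxye Y ⟨hxC, le_rfl⟩
      (fun i v => .res (vcomp (f x)) n ⟨Y, hYr⟩ i v) ?_ ?_ ?_ ?_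
    · intro i a ha b hb hab
      cases hab
      rfl
    · intro i v hv
      rfl
    · intro i a ha b hb hab
      exact Or.inl (Rel.res _ _ _ _ _ _ ha hb hab)
    · intro i a ha b hb hab
      have hbC : b ∈ C.supp := adj_supp ha.1 hab
      have hlt : n < vlev (f b) := by
        by_contra hc
        exact hb ⟨hbC, not_lt.1 hc⟩
      obtain ⟨h1, w, hw, hbw⟩ := cross (hadj hab) ((hzone _ ha.1).trans hz) ha.2 hlt
      rw [hcomp a ha.1] at h1 hw
      rw [hbw]
      exact Or.inr (Rel.att w _ h1 _ _ _ _ hw ha)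
  | some j =>
    have hcop : ∀ a b, a ∈ C.supp → H.Adj a b → f a = .cop j (wof (f a)) ∧
        H.Adj (wof (f a)) (wof (f b)) ∧ ¬ Fine H (H.connectedComponentMk (wof (f a))) := by
      intro a b ha hab
      have h := adj_cop (hadj hab) ((hzone _ ha).trans hz)
      exact ⟨h.1, h.2.2.1, h.2.2.2⟩
    have hex : ∀ v ∈ C.supp, ∃ b, H.Adj v b := by
      intro v hv
      refine comp_induct (P := fun v => ∃ b, H.Adj v b) (fun a b hab _ => ⟨a, hab.symm⟩)
        hxC hv ⟨_, hxy⟩
    refine reroute hF hfree hcard he f x y hxye C.supp hxC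
      (fun i v => .cop i (wof (f v))) ?_ ?_ ?_ ?_
    · intro i a ha b hb hab
      obtain ⟨a', ha'⟩ := hex a ha
      obtain ⟨b', hb'⟩ := hex b hb
      have h1 := (hcop a a' ha ha').1
      have h2 := (hcop b b' hb hb').1
      have h3 : wof (f a) = wof (f b) := by
        simpa using hab
      rw [h3, ← h2] at h1
      exact f.injective h1
    · intro i v hv
      rfl
    · intro i a ha b hb hab
      exact Or.inl (Rel.cop _ _ _ (hcop a b ha hab).2.1 (hcop a b ha hab).2.2)
    · intro i a ha b hb hab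
      exact absurd (adj_supp ha hab) hb

theorem contained : H ⊑ GG H := by
  classical
  refine ⟨⟨⟨fun w => if Fine H (H.connectedComponentMk w) then .core w else .cop ∅ w, ?_⟩, ?_⟩⟩
  · intro a b hab
    have hc : H.connectedComponentMk a = H.connectedComponentMk b :=
      ConnectedComponent.sound hab.reachable
    by_cases ha : Fine H (H.connectedComponentMk a)
    · have hb := hc ▸ ha
      simp only [if_pos ha, if_pos hb]
      exact Or.inl (Rel.core _ _ ha hab)
    · have hb := hc ▸ ha
      simp only [if_neg ha, if_neg hb]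
      exact Or.inl (Rel.cop _ _ _ hab ha)
  · intro a b hab
    dsimp only [RelHom.coeFn_mk] at hab
    by_cases ha : Fine H (H.connectedComponentMk a) <;>
      by_cases hb : Fine H (H.connectedComponentMk b) <;> simp_all

theorem card_coreE : #(coreE H) < #(KK W) := by
  have hch : ∀ e : coreE H, ∃ q : Sym2 W, e.1 = q.map Vx.core := by
    rintro ⟨e, u, v, rfl⟩
    exact ⟨s(u, v), rfl⟩
  choose q hq using hch
  refine lt_KK_of_inj (fun e => Sum.inl (q e)) ?_
  intro a b hab
  have h : q a = q b := by simpa using hab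
  exact Subtype.ext ((hq a).trans ((congrArg _ h).trans (hq b).symm))

theorem ray_case {C : H.ConnectedComponent} (hray : ¬ Rayless H C.supp)
    (hC : ∀ C' : H.ConnectedComponent, C.toSimpleGraph ⊑ C'.toSimpleGraph → Fine H C') :
    ¬ ∃ F : Set (Sym2 (VV H)), IsStronglyMaximal H (GG H) F := by
  rintro ⟨F, ⟨hF, hfree⟩, hmax⟩
  by_cases hcard : #↥((GG H).edgeSet \ F) < #(KK W)
  · have hne : ∃ e ∈ (GG H).edgeSet, e ∉ F := by
      by_contra hcon
      push Not at hcon
      have hFE : F = (GG H).edgeSet := subset_antisymm hF hcon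
      rw [hFE, fromEdgeSet_edgeSet] at hfree
      exact hfree contained
    obtain ⟨e, he, heF⟩ := hne
    have h := hmax (insert e F) ⟨Set.insert_subset he hF, exchange hF hfree hcard he⟩
    have h1 : F \ insert e F = ∅ := by
      rw [Set.sdiff_eq_empty]
      exact Set.subset_insert _ _
    rw [h1, Cardinal.mk_eq_zero ↥(∅ : Set (Sym2 (VV H))), nonpos_iff_eq_zero,
      Cardinal.mk_eq_zero_iff] at h
    exact h.elim ⟨e, Set.mem_insert _ _, heF⟩
  · rw [not_lt] at hcard
    have h := hmax ((GG H).edgeSet \ coreE H) ⟨Set.sdiff_subset, free_of_disj hray hC⟩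
    have h1 : F \ ((GG H).edgeSet \ coreE H) ⊆ coreE H := by
      intro e he
      by_contra hc
      exact he.2 ⟨hF he.1, hc⟩
    have h2 := (h.trans (Cardinal.mk_le_mk_of_subset h1)).trans_lt card_coreE
    have h3 : (GG H).edgeSet \ F ⊆ (((GG H).edgeSet \ coreE H) \ F) ∪ coreE H := by
      intro e he
      by_cases hc : e ∈ coreE H
      · exact Or.inr hc
      · exact Or.inl ⟨⟨he.1, hc⟩, he.2⟩
    have h4 := (hcard.trans (Cardinal.mk_le_mk_of_subset h3)).trans (Cardinal.mk_union_le _ _)
    exact absurd h4 (not_le.2 (Cardinal.add_lt_of_lt infinite_KK h2 card_coreE))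

end host

/-- If `H` is contained in `H - e` for all its edges `e` then `G = H` is a counterexample. -/
theorem additive_case {W : Type} {H : SimpleGraph W}
    (h : ∀ e ∈ H.edgeSet, H ⊑ H.deleteEdges {e}) :
    ¬ ∃ F : Set (Sym2 W), IsStronglyMaximal H H F := by
  classical
  rintro ⟨F, ⟨hF, hfree⟩, hmax⟩
  have hex : ∃ e ∈ H.edgeSet, e ∉ F := by
    by_contra hcon
    push Not at hcon
    have hFE : F = H.edgeSet := subset_antisymm hF hcon
    rw [hFE, fromEdgeSet_edgeSet] at hfree
    exact hfree (IsContained.refl H)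
  obtain ⟨e, he, heF⟩ := hex
  have hfree2 : H.Free (fromEdgeSet (insert e F)) := by
    rintro ⟨f⟩
    by_cases hxy : ∃ x y, H.Adj x y ∧ s(f x, f y) = e
    · obtain ⟨x, y, hxy, hxye⟩ := hxy
      refine hfree ((h s(x, y) hxy).trans ⟨⟨⟨f, ?_⟩, f.injective⟩⟩)
      intro a b hab
      rw [deleteEdges_adj] at hab
      have h1 := f.toHom.map_adj hab.1
      rw [fromEdgeSet_adj] at h1 ⊢
      refine ⟨h1.1.resolve_left ?_, h1.2⟩
      intro h2
      have h' : s(f a, f b) = s(f x, f y) := h2.trans hxye.symm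
      apply hab.2
      rw [Set.mem_singleton_iff]
      rw [Sym2.eq_iff] at h' ⊢
      rcases h' with ⟨h1, h2⟩ | ⟨h1, h2⟩
      · exact Or.inl ⟨f.injective h1, f.injective h2⟩
      · exact Or.inr ⟨f.injective h1, f.injective h2⟩
    · push Not at hxy
      refine hfree ⟨⟨⟨f, ?_⟩, f.injective⟩⟩
      intro a b hab
      have h := f.toHom.map_adj hab
      rw [fromEdgeSet_adj] at h ⊢
      exact ⟨h.1.resolve_left (hxy a b hab), h.2⟩
  have h := hmax (insert e F) ⟨Set.insert_subset he hF, hfree2⟩
  have h1 : F \ insert e F = ∅ := by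
    rw [Set.sdiff_eq_empty]
    exact Set.subset_insert _ _
  rw [h1, Cardinal.mk_eq_zero ↥(∅ : Set (Sym2 W)), nonpos_iff_eq_zero,
    Cardinal.mk_eq_zero_iff] at h
  exact h.elim ⟨e, Set.mem_insert _ _, heF⟩

/-- All components of a locally finite graph are fine: take `X = {v}`. Hence condition (i) of
`result` holds for all locally finite graphs containing a ray. -/
theorem locallyFinite_ray {W : Type} (H : SimpleGraph W) (hlf : ∀ v, (H.neighborSet v).Finite)
    (hray : ¬ Rayless H Set.univ) :
    ∃ C : H.ConnectedComponent, ¬ Rayless H C.supp ∧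
        ∀ C' : H.ConnectedComponent, C.toSimpleGraph ⊑ C'.toSimpleGraph → Fine H C' := by
  rw [Rayless, not_not] at hray
  obtain ⟨r, hr, h⟩ := hray
  refine ⟨H.connectedComponentMk (r 0), ?_, ?_⟩
  · rw [Rayless, not_not]
    refine ⟨r, hr, fun n => ⟨?_, (h n).2⟩⟩
    induction n with
    | zero => rw [ConnectedComponent.mem_supp_iff]
    | succ n ih => exact adj_supp ih (h n).2
  · intro C' _ v _
    refine ⟨{v}, rfl, ?_, (hlf v).subset ?_⟩
    · rintro ⟨r, hr, h⟩
      exact absurd (hr (((h 0).1 : r 0 = v).trans ((h 1).1 : r 1 = v).symm)) (by norm_num)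
    · rintro w ⟨-, x, hx, hxw⟩
      rw [Set.mem_singleton_iff] at hx
      subst hx
      exact hxw

/-- Let `H` be a graph (of any cardinality) such that either (i) some component `C` of `H`
contains a ray and, for every component `C'` of `H` that contains a copy of `C`, every vertex of
`C'` lies in a set `X` of vertices inducing a rayless graph such that only finitely many vertices
outside `X` have neighbours in `X`; or (ii) `H` has an edge and `H` is contained in `H - e` for
every edge `e`. Then some graph `G` has no strongly maximal `H`-free edge set. By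
`locallyFinite_ray`, (i) holds for every locally finite graph containing a ray. -/
theorem result {W : Type} (H : SimpleGraph W)
    (h : (∃ C : H.ConnectedComponent, ¬ Rayless H C.supp ∧
        ∀ C' : H.ConnectedComponent, C.toSimpleGraph ⊑ C'.toSimpleGraph → Fine H C') ∨
      (H.edgeSet.Nonempty ∧ ∀ e ∈ H.edgeSet, H ⊑ H.deleteEdges {e})) :
    ∃ (V : Type) (G : SimpleGraph V), ¬ ∃ F : Set (Sym2 V), IsStronglyMaximal H G F := by
  rcases h with ⟨C, hC, hC'⟩ | ⟨hne, h⟩
  · exact ⟨_, _, ray_case hC hC'⟩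
  · exact ⟨_, _, additive_case h⟩

end Pool.Agent.Results.MP_fc2b6d_co.InfiniteGraphs
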