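import Pool.Agent.H165R2.SM8
import Pool.Agent.H165R2.SM9

open SimpleGraph

namespace Pool.Agent.Results.MP_fc2b6d_co.WithCycles

/-- `F` is an `H`-free set of edges of `G`: the spanning subgraph `(V, F)` contains no subgraph
isomorphic to `H`. -/
def IsFreeEdgeSet {W V : Type} (H : SimpleGraph W) (G : SimpleGraph V) (F : Set (Sym2 V)) : Prop :=
  F ⊆ G.edgeSet ∧ H.Free (SimpleGraph.fromEdgeSet F)

/-- `F` is a strongly maximal `H`-free set of edges of `G`: `|I \ F| ≤ |F \ I|` (as cardinals) for
all `H`-free sets `I` of edges of `G`. -/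
def IsStronglyMaximal {W V : Type} (H : SimpleGraph W) (G : SimpleGraph V)
    (F : Set (Sym2 V)) : Prop :=
  IsFreeEdgeSet H G F ∧
    ∀ I : Set (Sym2 V), IsFreeEdgeSet H G I → Cardinal.mk ↥(I \ F) ≤ Cardinal.mk ↥(F \ I)

/-- `Z` is a set of edges of `H` such that every vertex is in an even number of edges of `Z`. -/
def IsEvenSet {W : Type} (H : SimpleGraph W) (Z : Set (Sym2 W)) : Prop :=
  Z ⊆ H.edgeSet ∧ ∀ v : W, Even {e ∈ Z | v ∈ e}.ncard

/-- `H` is 2-connected: connected, without cut vertex, with at least three vertices. -/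
structure TwoConnected {W : Type} (H : SimpleGraph W) : Prop where
  three : ∃ a b c : W, a ≠ b ∧ a ≠ c ∧ b ≠ c
  conn : H.Connected
  cut : ∀ v : W, (H.induce {v}ᶜ).Connected

/-- The class of graphs treated here. -/
inductive Covered : ∀ {W : Type}, SimpleGraph W → Prop
  /-- 2-connected graphs `H` with two edges `v0 p`, `v0 q` such that every edge `a b` of `H` for
  which `H - a - b` is disconnected lies in an even set with fewer edges than all even sets
  containing `v0 p` or `v0 q` (this holds in particular if there are no such edges `a b`). -/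
  | block {W : Type} [Finite W] (H : SimpleGraph W) (h2 : TwoConnected H) (v0 p q : W)
      (hpq : p ≠ q) (hp : H.Adj v0 p) (hq : H.Adj v0 q)
      (hsep : ∀ a b : W, H.Adj a b → ¬ (H.induce {a, b}ᶜ).Preconnected →
        ∃ Z, IsEvenSet H Z ∧ s(a, b) ∈ Z ∧
          ∀ Z', IsEvenSet H Z' → (s(v0, p) ∈ Z' ∨ s(v0, q) ∈ Z') → Z.ncard < Z'.ncard) :
      Covered H
  /-- forests which are not stars -/
  | forest {W : Type} [Finite W] [Nonempty W] (H : SimpleGraph W) (hac : H.IsAcyclic)
      (hs : ¬ ∃ v, ∀ e ∈ H.edgeSet, v ∈ e) : Covered H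
  /-- graphs for which the subgraph induced by the vertices of degree at least `k` is covered -/
  | degree {W : Type} [Finite W] (H : SimpleGraph W) (k : ℕ)
      (h : Covered (H.induce {w | k ≤ (H.neighborSet w).ncard})) : Covered H
  /-- graphs with a covered component which is maximal with respect to containment -/
  | comp {W : Type} [Finite W] (H : SimpleGraph W) (C : H.ConnectedComponent)
      (h : Covered C.toSimpleGraph)
      (hmax : ∀ C' : H.ConnectedComponent, C.toSimpleGraph ⊑ C'.toSimpleGraph →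
        C'.toSimpleGraph ⊑ C.toSimpleGraph) : Covered H

open Pool.Agent.Results.MP_fc2b6d_co.Forests in
theorem Covered.fail {W : Type} {H : SimpleGraph W} (h : Covered H) :
    (∃ a b, H.Adj a b) ∧ Fail H := by
  classical
  induction h with
  | @block W _ H h2 v0 p q hpq hp hq hsep =>
    refine ⟨⟨_, _, hp⟩, ?_⟩
    have hfin : H.edgeSet.Finite := Set.toFinite _
    have hE : ∀ e, e ∈ hfin.toFinset ↔ e ∈ H.edgeSet := fun e => hfin.mem_toFinset
    have hEv : ∀ Z : Finset (Sym2 W), Z ⊆ hfin.toFinset →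
        (H165R2.SM.Ev Z ↔ IsEvenSet H (Z : Set (Sym2 W))) := by
      intro Z hZ
      have hsub : (Z : Set (Sym2 W)) ⊆ H.edgeSet := fun e he => (hE e).1 (hZ he)
      have hcard : ∀ v, {e ∈ (Z : Set (Sym2 W)) | v ∈ e}.ncard = H165R2.SM.dg Z v := by
        intro v
        rw [H165R2.SM.dg, ← Set.ncard_coe_finset]
        congr 1
        ext e
        simp
      constructor
      · intro h
        exact ⟨hsub, fun v => by rw [hcard]; exact h v⟩
      · intro h v
        rw [← hcard]
        exact h.2 v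
    refine H165R2.SM.fail_good H hfin.toFinset hE v0 p q hpq hp hq
      ⟨H165R2.SM.Rl_all hE h2.conn.preconnected (fun v => (h2.cut v).preconnected) h2.three, ?_⟩
    intro a b hab hs
    have hcon : ¬ (H.induce {a, b}ᶜ).Preconnected := fun hc => H165R2.SM.not_sep hE hc hs
    obtain ⟨Z, hZ, habZ, hmin⟩ := hsep a b ((hE _).1 hab) hcon
    have hZfin : Z.Finite := Set.toFinite _
    refine ⟨hZfin.toFinset, ?_, ?_, hZfin.mem_toFinset.2 habZ, ?_⟩
    · intro e he
      exact (hE e).2 (hZ.1 (hZfin.mem_toFinset.1 he))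
    · rw [hEv _ (fun e he => (hE e).2 (hZ.1 (hZfin.mem_toFinset.1 he))), hZfin.coe_toFinset]
      exact hZ
    · intro Z' hZ' hE' hmem
      have := hmin Z' ((hEv Z' hZ').1 hE') hmem
      rw [Set.ncard_coe_finset] at this
      rwa [← Set.ncard_eq_toFinset_card Z hZfin]
  | @forest W _ _ H hac hs =>
    have hs' : ¬ IsStar H := by
      rintro ⟨v, hv⟩
      apply hs
      refine ⟨v, fun e => ?_⟩
      induction e with
      | _ a b =>
        intro he
        rcases hv a b he with rfl | rfl
        · exact Sym2.mem_mk_left _ _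
        · exact Sym2.mem_mk_right _ _
    refine ⟨?_, forest_fail hac hs'⟩
    by_contra hcon
    push Not at hcon
    obtain ⟨w⟩ := ‹Nonempty W›
    exact hs' ⟨w, fun a b hab => absurd hab (hcon a b)⟩
  | @degree W _ H k h ih =>
    obtain ⟨⟨a, b, hab⟩, hf⟩ := ih
    exact ⟨⟨a, b, hab⟩, H165R2.SM.degree_step k _ (fun w => Iff.rfl) ⟨a, b, hab⟩ hf⟩
  | @comp W _ H C h hmax ih =>
    obtain ⟨⟨a, b, hab⟩, hf⟩ := ih
    exact ⟨⟨a, b, hab⟩, comp_step C ⟨a, b, hab⟩ hf hmax⟩

/-- For every graph `H` of the class there is a graph `G` without strongly maximal `H`-free edge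
set. -/
theorem result {W : Type} (H : SimpleGraph W) (h : Covered H) :
    ∃ (V : Type) (G : SimpleGraph V), ¬ ∃ F : Set (Sym2 V), IsStronglyMaximal H G F := by
  exact h.fail.2.spec

end Pool.Agent.Results.MP_fc2b6d_co.WithCycles
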